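import Pool.Agent.H474.MS.Stm3

/-!
# Project MS (helper474): weak convergence and fourth moments give convergence of the variances
-/

set_option autoImplicit false

open MeasureTheory Filter Topology Set

namespace Pool.Agent.H675.MS.K6b

open Pool.Agent.H474.MS

/-- `min (x²) K` -/
noncomputable def phi (K x : ℝ) : ℝ := min (x ^ 2) K

theorem phi_cont (K : ℝ) : Continuous (phi K) := by
  unfold phi
  fun_prop

theorem phi_bd {K : ℝ} (hK : 0 ≤ K) (x : ℝ) : |phi K x| ≤ K := by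
  unfold phi
  rw [abs_of_nonneg (le_min (sq_nonneg x) hK)]
  exact min_le_right _ _

/-- `phi` as a bounded continuous function -/
noncomputable def phiB (K : ℝ) (hK : 0 ≤ K) : BoundedContinuousFunction ℝ ℝ :=
  BoundedContinuousFunction.ofNormedAddCommGroup (phi K) (phi_cont K) K (phi_bd hK)

theorem phi_int {K : ℝ} (hK : 0 ≤ K) (μ : Measure ℝ) [IsProbabilityMeasure μ] :
    Integrable (phi K) μ :=
  (phiB K hK).integrable μ

theorem pt1 {K : ℝ} (hK : 0 < K) (x : ℝ) : x ^ 2 ≤ phi K x + x ^ 4 / K := by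
  unfold phi
  rcases le_total (x ^ 2) K with h | h
  · rw [min_eq_left h]
    have : 0 ≤ x ^ 4 / K := by positivity
    linarith
  · rw [min_eq_right h]
    have h2 : x ^ 2 ≤ x ^ 4 / K := by
      rw [le_div_iff₀ hK]
      nlinarith [sq_nonneg x]
    linarith

theorem pt2 {v : ℝ} (hv : 0 < v) (x : ℝ) :
    x ^ 2 ≤ 100 + x ^ 4 / (12 * v) + 3 * v / 100 * phi 100 x := by
  unfold phi
  rcases le_total (x ^ 2) 100 with h | h
  · rw [min_eq_left h]
    have : 0 ≤ x ^ 4 / (12 * v) := by positivity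
    have : 0 ≤ 3 * v / 100 * x ^ 2 := by positivity
    linarith
  · rw [min_eq_right h]
    have h2 : x ^ 2 ≤ x ^ 4 / (12 * v) + 3 * v := by
      rw [div_add' _ _ _ (by positivity), le_div_iff₀ (by positivity)]
      nlinarith [sq_nonneg (x ^ 2 - 6 * v)]
    linarith

theorem int4 {μ : Measure ℝ} {c : ℝ} (hc : 0 ≤ c)
    (h : ∫⁻ x, ENNReal.ofReal (x ^ 4) ∂μ ≤ ENNReal.ofReal c) :
    Integrable (fun x : ℝ => x ^ 4) μ ∧ ∫ x, x ^ 4 ∂μ ≤ c := by
  have hm : AEStronglyMeasurable (fun x : ℝ => x ^ 4) μ := by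
    exact (continuous_pow 4).aestronglyMeasurable
  have h0 : 0 ≤ᵐ[μ] fun x : ℝ => x ^ 4 := Eventually.of_forall fun x => by positivity
  constructor
  · refine ⟨hm, ?_⟩
    rw [hasFiniteIntegral_iff_ofReal h0]
    exact h.trans_lt ENNReal.ofReal_lt_top
  · rw [integral_eq_lintegral_of_nonneg_ae h0 hm]
    exact ENNReal.toReal_le_of_le_ofReal hc h

theorem up1 {μ : Measure ℝ} [IsProbabilityMeasure μ] {v K : ℝ} (hK : 0 < K)
    (h2 : Integrable (fun x : ℝ => x ^ 2) μ) (hv : ∫ x, x ^ 2 ∂μ = v)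
    (h4 : ∫⁻ x, ENNReal.ofReal (x ^ 4) ∂μ ≤ ENNReal.ofReal (3 * v ^ 2)) :
    v ≤ ∫ x, phi K x ∂μ + 3 * v ^ 2 / K := by
  obtain ⟨i4, l4⟩ := int4 (by positivity) h4
  have h : ∫ x, x ^ 2 ∂μ ≤ ∫ x, (phi K x + x ^ 4 / K) ∂μ :=
    integral_mono h2 ((phi_int hK.le μ).add (i4.div_const K)) (fun x => pt1 hK x)
  rw [hv, integral_add (phi_int hK.le μ) (i4.div_const K), integral_div] at h
  refine h.trans ?_
  have := div_le_div_of_nonneg_right l4 hK.le
  linarith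

theorem up2 {μ : Measure ℝ} [IsProbabilityMeasure μ] {v : ℝ}
    (h2 : Integrable (fun x : ℝ => x ^ 2) μ) (hv : ∫ x, x ^ 2 ∂μ = v)
    (h4 : ∫⁻ x, ENNReal.ofReal (x ^ 4) ∂μ ≤ ENNReal.ofReal (3 * v ^ 2))
    (hp : ∫ x, phi 100 x ∂μ ≤ 2) : v ≤ 150 := by
  by_contra hcon
  push Not at hcon
  have hv0 : 0 < v := by linarith
  obtain ⟨i4, l4⟩ := int4 (by positivity) h4
  have i1 := phi_int (K := 100) (by norm_num) μ
  have h : ∫ x, x ^ 2 ∂μ ≤ ∫ x, (100 + x ^ 4 / (12 * v) + 3 * v / 100 * phi 100 x) ∂μ :=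
    integral_mono h2 (((integrable_const (100 : ℝ)).add (i4.div_const (12 * v))).add
      (i1.const_mul (3 * v / 100))) (fun x => pt2 hv0 x)
  have h5 : ∫ x, (100 + x ^ 4 / (12 * v) + 3 * v / 100 * phi 100 x) ∂μ =
      100 + (∫ x, x ^ 4 ∂μ) / (12 * v) + 3 * v / 100 * ∫ x, phi 100 x ∂μ := by
    have j1 : ∫ x, (100 + x ^ 4 / (12 * v) + 3 * v / 100 * phi 100 x) ∂μ =
        ∫ x, (100 + x ^ 4 / (12 * v)) ∂μ + ∫ x, 3 * v / 100 * phi 100 x ∂μ :=
      integral_add ((integrable_const (100 : ℝ)).add (i4.div_const (12 * v)))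
        (i1.const_mul (3 * v / 100))
    have j2 : ∫ x, (100 + x ^ 4 / (12 * v)) ∂μ = ∫ _x, (100 : ℝ) ∂μ + ∫ x, x ^ 4 / (12 * v) ∂μ :=
      integral_add (integrable_const (100 : ℝ)) (i4.div_const (12 * v))
    rw [j1, j2, integral_const_mul, integral_div, integral_const]
    simp
  rw [hv, h5] at h
  have h6 : (∫ x, x ^ 4 ∂μ) / (12 * v) ≤ v / 4 := by
    rw [div_le_iff₀ (by positivity)]
    nlinarith
  have h7 : 3 * v / 100 * ∫ x, phi 100 x ∂μ ≤ 3 * v / 100 * 2 :=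
    mul_le_mul_of_nonneg_left hp (by positivity)
  linarith

theorem low {μ : Measure ℝ} [IsProbabilityMeasure μ] {v K : ℝ} (hK : 0 ≤ K)
    (h2 : Integrable (fun x : ℝ => x ^ 2) μ) (hv : ∫ x, x ^ 2 ∂μ = v) :
    ∫ x, phi K x ∂μ ≤ v := by
  rw [← hv]
  exact integral_mono (phi_int hK μ) h2 fun x => min_le_left _ _

theorem gauss2 : Integrable (fun x : ℝ => x ^ 2) (ProbabilityTheory.gaussianReal 0 1) ∧
    ∫ x, x ^ 2 ∂(ProbabilityTheory.gaussianReal 0 1) = 1 := by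
  have h1 := ProbabilityTheory.memLp_id_gaussianReal (μ := 0) (v := 1) 2
  have h2 : Integrable (fun x : ℝ => x ^ 2) (ProbabilityTheory.gaussianReal 0 1) := by
    have h3 := h1.integrable_sq
    exact h3
  refine ⟨h2, ?_⟩
  have h4 := ProbabilityTheory.variance_fun_id_gaussianReal (μ := 0) (v := 1)
  rw [ProbabilityTheory.variance_eq_integral (by fun_prop)] at h4
  simp only [ProbabilityTheory.integral_id_gaussianReal, sub_zero, NNReal.coe_one] at h4
  exact h4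

theorem gauss_lim : Tendsto (fun K : ℕ => ∫ x, phi K x ∂(ProbabilityTheory.gaussianReal 0 1))
    atTop (𝓝 1) := by
  rw [← gauss2.2]
  refine tendsto_integral_of_dominated_convergence (fun x : ℝ => x ^ 2)
    (fun K => (phi_cont K).aestronglyMeasurable) gauss2.1 (fun K => Eventually.of_forall fun x => ?_)
    (Eventually.of_forall fun x => ?_)
  · rw [Real.norm_eq_abs]
    unfold phi
    rw [abs_of_nonneg (le_min (sq_nonneg x) (Nat.cast_nonneg K))]
    exact min_le_left _ _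
  · refine tendsto_const_nhds.congr' ?_
    filter_upwards [(tendsto_natCast_atTop_atTop (R := ℝ)).eventually_ge_atTop (x ^ 2)] with K hK
    unfold phi
    rw [min_eq_left hK]

theorem t_K6b : Pool.Agent.H474.MS.S_K6b := by
  intro μ v h hlim
  have hB : ∀ K : ℝ, 0 ≤ K → Tendsto (fun δ => ∫ x, phi K x ∂(μ δ : Measure ℝ)) (𝓝[>] 0)
      (𝓝 (∫ x, phi K x ∂(ProbabilityTheory.gaussianReal 0 1))) := by
    intro K hK
    exact (ProbabilityMeasure.tendsto_iff_forall_integral_tendsto.1 hlim) (phiB K hK)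
  have hle : ∀ K : ℝ, 0 ≤ K → ∫ x, phi K x ∂(ProbabilityTheory.gaussianReal 0 1) ≤ 1 :=
    fun K hK => low hK gauss2.1 gauss2.2
  have hpos : ∀ᶠ δ : ℝ in 𝓝[>] 0, 0 < δ := eventually_mem_nhdsWithin
  -- the variances are bounded
  have hbd : ∀ᶠ δ : ℝ in 𝓝[>] 0, v δ ≤ 150 := by
    have h1 := (hB 100 (by norm_num)).eventually (gt_mem_nhds
      (lt_of_le_of_lt (hle 100 (by norm_num)) (by norm_num : (1 : ℝ) < 2)))
    filter_upwards [h1, hpos] with δ hδ hδ0
    obtain ⟨a1, a2, a3⟩ := h δ hδ0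
    exact up2 a1 a2 a3 hδ.le
  rw [Metric.tendsto_nhds]
  intro ε hε
  obtain ⟨K, hK1, hK2, hK3⟩ : ∃ K : ℝ, 0 < K ∧ 3 * 150 ^ 2 / K ≤ ε / 4 ∧
      1 - ε / 4 ≤ ∫ x, phi K x ∂(ProbabilityTheory.gaussianReal 0 1) := by
    have h1 := gauss_lim.eventually (lt_mem_nhds (show 1 - ε / 4 < 1 by linarith))
    have h2 := (tendsto_natCast_atTop_atTop (R := ℝ)).eventually_ge_atTop
      (3 * 150 ^ 2 / (ε / 4))
    have h3 := (tendsto_natCast_atTop_atTop (R := ℝ)).eventually_gt_atTop 0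
    obtain ⟨K, k1, k2, k3⟩ := (h1.and (h2.and h3)).exists
    refine ⟨K, k3, ?_, k1.le⟩
    rw [div_le_iff₀ (by positivity)] at k2
    rw [div_le_iff₀ k3]
    linarith
  have h4 := (Metric.tendsto_nhds.1 (hB K hK1.le)) (ε / 4) (by linarith)
  filter_upwards [h4, hpos, hbd] with δ hδ hδ0 hδb
  obtain ⟨a1, a2, a3⟩ := h δ hδ0
  rw [Real.dist_eq, abs_lt] at hδ
  have b1 := low hK1.le a1 a2
  have b2 := up1 hK1 a1 a2 a3
  have hv0 : 0 ≤ v δ := by
    rw [← a2]
    exact integral_nonneg fun x => sq_nonneg x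
  have b3 : 3 * v δ ^ 2 / K ≤ ε / 4 := by
    refine (div_le_div_of_nonneg_right ?_ hK1.le).trans hK2
    have := pow_le_pow_left₀ hv0 hδb 2
    linarith
  have b4 := hle K hK1.le
  rw [Real.dist_eq, abs_lt]
  constructor <;> linarith

end Pool.Agent.H675.MS.K6b
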